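import Pool.Agent.Helper87.BT.Final

/-!
# Knots with bounded patterns: all Vassiliev invariants are decided in one fixed degree

A pattern is a list of minima, maxima and braid words; in a diagram with this pattern every braid
word is replaced by a power of it, with an arbitrary integer exponent.  So the knots which have a
diagram whose pattern has size at most `L` include the knots with a bounded number of twist regions
and any number of crossings in them, and the closures of the powers of a fixed braid.

For every `L` there is a degree `d` such that two knots of this kind which have the same rational
Vassiliev invariants of degree at most `d` have the same rational Vassiliev invariants of all degrees.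
-/

namespace Pool.Agent.Results.MP_5f6b43_gt.BoundedTwistNumber

open Pool.Agent.Helper77.ST (IsKnot IsVassiliev)
open Pool.Agent.Helper9.Kashaev (Diagram)
open Pool.Agent.Helper87.BT (Letter size dia wfL)

theorem result (L : ℕ) : ∃ d : ℕ, ∀ S S' : List Letter, wfL 1 S 1 → wfL 1 S' 1 →
    size S ≤ L → size S' ≤ L →
    ∀ a a' : ℕ → ℤ, IsKnot (dia S a) → IsKnot (dia S' a') →
      (∀ I : Diagram → ℚ, IsVassiliev d I → I (dia S a) = I (dia S' a')) →
      ∀ (e : ℕ) (I : Diagram → ℚ), IsVassiliev e I → I (dia S a) = I (dia S' a') :=
  Pool.Agent.Helper87.BT.main L

end Pool.Agent.Results.MP_5f6b43_gt.BoundedTwistNumber
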