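import Mathlib
import Pool.Agent.Helper67.KZ.Final

/-!
# Vassiliev invariants of bounded degree detect almost all closed braids

For every number `n + 1 ≥ 3` of strands and every `A` there is a constant `C` such that, among
the braid words of length `N` whose closure is a knot, the fraction of those which have the same
rational Vassiliev invariants of degree `≤ 4 A` as a given knot `K` is at most `C / N ^ A`.
In particular the fraction of words closing to a knot with the Kontsevich invariant of the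
unknot decays faster than any power of `N`.
-/

set_option autoImplicit false

namespace Pool.Agent.Results.MP_5f6b43_gt.GenericDetection

open Pool.Agent.Helper67.KZ

lemma isVassiliev_mono {d d' : ℕ} (h : d ≤ d') {v : (n : ℕ) → Word n → ℚ}
    (hv : IsVassiliev d v) : IsVassiliev d' v :=
  ⟨hv.markov, fun n x hx hd => hv.finite_type n x hx (lt_of_le_of_lt h hd)⟩

lemma main_bound (n : ℕ) (hn : 2 ≤ n) (A : ℕ) :
    ∃ C : ℝ, ∀ N : ℕ, 1 ≤ N → ∀ (m : ℕ) (K : Word m),
      ({w : Fin N → Fin n × Bool |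
          IsKnot (List.ofFn w) ∧ Agree (4 * A) (List.ofFn w) K}.ncard : ℝ) * (N : ℝ) ^ A ≤
        C * ({w : Fin N → Fin n × Bool | IsKnot (List.ofFn w)}.ncard : ℝ) := by
  classical
  obtain ⟨C, hC0, hC⟩ := count_bound n hn (2 * A)
  obtain ⟨c, hc0, hc⟩ := knot_count n
  refine ⟨C / c, ?_⟩
  intro N hN m K
  by_cases hex : ∃ w : Fin N → Fin n × Bool, IsKnot (List.ofFn w)
  · have h1 := hC N hN [] [] (fun r => PowerSeries.coeff (2 * r + 2) (T K))
    have h2 := hc N hex
    have hpow : (Real.sqrt N) ^ (2 * A) = (N : ℝ) ^ A := by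
      rw [pow_mul, Real.sq_sqrt (Nat.cast_nonneg N)]
    rw [hpow] at h1
    have hsub : ({w : Fin N → Fin n × Bool |
          IsKnot (List.ofFn w) ∧ Agree (4 * A) (List.ofFn w) K}.ncard : ℝ) ≤
        (((Finset.univ.filter fun w : Fin N → Fin n × Bool =>
      IsKnot ([] ++ List.ofFn w ++ []) ∧
        ∀ r < 2 * A, PowerSeries.coeff (2 * r + 2) (T ([] ++ List.ofFn w ++ [])) =
          PowerSeries.coeff (2 * r + 2) (T K)).card : ℕ) : ℝ) := by
      rw [← Set.ncard_coe_finset]
      refine Nat.cast_le.mpr (Set.ncard_le_ncard ?_ (Set.toFinite _))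
      rintro w ⟨hk, ha⟩
      simp only [List.nil_append, List.append_nil, Finset.coe_filter, Finset.mem_univ, true_and,
        Set.mem_ofPred_eq]
      refine ⟨hk, fun r hr => ?_⟩
      exact ha _ (isVassiliev_mono (by omega) (T_vassiliev (2 * r + 2)))
    calc _ ≤ _ := mul_le_mul_of_nonneg_right hsub (by positivity)
      _ ≤ C * (2 * n : ℝ) ^ N := h1
      _ = C / c * (c * (2 * n : ℝ) ^ N) := by field_simp
      _ ≤ _ := mul_le_mul_of_nonneg_left h2 (by positivity)
  · have h0 : {w : Fin N → Fin n × Bool | IsKnot (List.ofFn w)} = ∅ := by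
      ext w
      simp only [Set.mem_ofPred_eq, Set.mem_empty_iff_false, iff_false]
      exact fun h => hex ⟨w, h⟩
    have h0' : {w : Fin N → Fin n × Bool |
          IsKnot (List.ofFn w) ∧ Agree (4 * A) (List.ofFn w) K} = ∅ := by
      ext w
      simp only [Set.mem_ofPred_eq, Set.mem_empty_iff_false, iff_false]
      exact fun h => hex ⟨w, h.1⟩
    rw [h0, h0']
    simp

lemma isKnot_exists (n : ℕ) (hn : 2 ≤ n) : ∃ N₀ : ℕ, ∀ N : ℕ, N₀ ≤ N → N % 2 = n % 2 →
    ∃ w : Fin N → Fin n × Bool, IsKnot (List.ofFn w) := by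
  obtain ⟨u, hu⟩ := exists_word (finRotate (n + 1))
  refine ⟨u.length, ?_⟩
  intro N hN hpar
  have hsign : Equiv.Perm.sign (finRotate (n + 1)) = (-1) ^ u.length := by
    rw [← hu, sign_perm]
  rw [sign_finRotate, Nat.add_sub_cancel] at hsign
  have hpar' : u.length % 2 = n % 2 := by
    rcases Nat.even_or_odd n with h | h <;> rcases Nat.even_or_odd u.length with h' | h'
    · rw [Nat.even_iff.mp h, Nat.even_iff.mp h']
    · rw [h.neg_one_pow, h'.neg_one_pow] at hsign
      exact absurd hsign (by decide)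
    · rw [h.neg_one_pow, h'.neg_one_pow] at hsign
      exact absurd hsign (by decide)
    · rw [Nat.odd_iff.mp h, Nat.odd_iff.mp h']
  obtain ⟨m, hm⟩ : ∃ m, N = u.length + 2 * m := ⟨(N - u.length) / 2, by omega⟩
  let i : Fin n := ⟨0, by omega⟩
  have hlen : (u ++ pad i m).length = N := by rw [List.length_append, pad_length, hm]
  have hw : ∀ (l : Word n), l.length = N → ∃ w : Fin N → Fin n × Bool, List.ofFn w = l := by
    intro l hl
    subst hl
    exact ⟨l.get, List.ofFn_get l⟩
  obtain ⟨w, hw⟩ := hw _ hlen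
  refine ⟨w, ?_⟩
  rw [hw]
  intro a b
  rw [perm_append, perm_pad, mul_one, hu]
  have hc : (finRotate (n + 1)).IsCycle := by
    obtain ⟨k, hk⟩ : ∃ k, n = k + 1 := ⟨n - 1, by omega⟩
    subst hk
    exact isCycle_finRotate
  have hs : ∀ x : Fin (n + 1), finRotate (n + 1) x ≠ x := by
    obtain ⟨k, hk⟩ : ∃ k, n = k + 1 := ⟨n - 1, by omega⟩
    subst hk
    intro x
    have := support_finRotate (n := k)
    rw [← Equiv.Perm.mem_support, this]
    exact Finset.mem_univ x
  exact hc.sameCycle (hs a) (hs b)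

/-- Let `n + 1 ≥ 3` be the number of strands.
(1) For every `A` there is `C` such that for every `N ≥ 1` and every braid word `K` (with any
number of strands) at most `C / N ^ A` of the braid words of length `N` whose closure is a knot
have the same rational Vassiliev invariants of degree `≤ 4 A` as the closure of `K`.
(2) In particular, for every `A` there is `C` such that for every `N ≥ 1` at most `C / N ^ A` of
the braid words of length `N` whose closure is a knot have the Kontsevich invariant of the unknot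
(the closure of the empty word on one strand).
(3) If `N` is large and `N ≡ n` mod `2`, a positive proportion of all `(2 n) ^ N` braid words of
length `N` has a knot as its closure. -/
theorem result (n : ℕ) (hn : 2 ≤ n) :
    (∀ A : ℕ, ∃ C : ℝ, ∀ N : ℕ, 1 ≤ N → ∀ (m : ℕ) (K : Word m),
      ({w : Fin N → Fin n × Bool |
          IsKnot (List.ofFn w) ∧ Agree (4 * A) (List.ofFn w) K}.ncard : ℝ) * (N : ℝ) ^ A ≤
        C * ({w : Fin N → Fin n × Bool | IsKnot (List.ofFn w)}.ncard : ℝ)) ∧
    (∀ A : ℕ, ∃ C : ℝ, ∀ N : ℕ, 1 ≤ N →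
      ({w : Fin N → Fin n × Bool |
          IsKnot (List.ofFn w) ∧ SameZ (List.ofFn w) ([] : Word 0)}.ncard : ℝ) * (N : ℝ) ^ A ≤
        C * ({w : Fin N → Fin n × Bool | IsKnot (List.ofFn w)}.ncard : ℝ)) ∧
    (∃ c : ℝ, 0 < c ∧ ∃ N₀ : ℕ, ∀ N : ℕ, N₀ ≤ N → N % 2 = n % 2 →
      c * (2 * n : ℝ) ^ N ≤ ({w : Fin N → Fin n × Bool | IsKnot (List.ofFn w)}.ncard : ℝ)) := by
  refine ⟨main_bound n hn, ?_, ?_⟩
  · intro A
    obtain ⟨C, hC⟩ := main_bound n hn A
    refine ⟨C, fun N hN => ?_⟩
    refine le_trans ?_ (hC N hN 0 [])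
    refine mul_le_mul_of_nonneg_right ?_ (by positivity)
    refine Nat.cast_le.mpr (Set.ncard_le_ncard ?_ (Set.toFinite _))
    rintro w ⟨h1, h2⟩
    exact ⟨h1, h2 _⟩
  · obtain ⟨c, hc0, hc⟩ := knot_count n
    obtain ⟨N₀, hN₀⟩ := isKnot_exists n hn
    exact ⟨c, hc0, N₀, fun N hN hpar => hc N (hN₀ N hN hpar)⟩

end Pool.Agent.Results.MP_5f6b43_gt.GenericDetection
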